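import Mathlib

/-!
The bootstrapping step (6.3) in the proof of the linear inverse theorem (E''):
a purely real statement.
-/

open Set Real

namespace H41.F2

/-- the auxiliary function `z e^{-b sqrt z}`. -/
noncomputable def hb (b z : ℝ) : ℝ := z * Real.exp (-(b * √z))

theorem hb_hasDerivAt (b z : ℝ) (hz : 0 < z) :
    HasDerivAt (hb b) (Real.exp (-(b * √z)) * (1 - b * √z / 2)) z := by
  have h1 : HasDerivAt (fun x : ℝ => √x) (1 / (2 * √z)) z := Real.hasDerivAt_sqrt hz.ne'
  have h2 : HasDerivAt (fun x : ℝ => -(b * √x)) (-(b * (1 / (2 * √z)))) z :=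
    (h1.const_mul b).neg
  have h3 := h2.exp
  have h4 := (hasDerivAt_id z).mul h3
  have hs : 0 < √z := Real.sqrt_pos.2 hz
  have hzz : z = √z * √z := (Real.mul_self_sqrt hz.le).symm
  refine h4.congr_deriv ?_
  simp only [id]
  have : z * (Real.exp (-(b * √z)) * -(b * (1 / (2 * √z))))
      = Real.exp (-(b * √z)) * (-(b * √z / 2)) := by
    have e : z * (1 / (2 * √z)) = √z / 2 := by
      nth_rewrite 1 [hzz]
      field_simp
    calc z * (Real.exp (-(b * √z)) * -(b * (1 / (2 * √z))))
        = Real.exp (-(b * √z)) * (-(b * (z * (1 / (2 * √z))))) := by ring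
      _ = _ := by rw [e]; ring
  rw [this]; ring

theorem hb_continuous (b : ℝ) : Continuous (hb b) := by
  unfold hb
  exact continuous_id.mul (Real.continuous_exp.comp
    ((continuous_const.mul Real.continuous_sqrt).neg))

theorem hb_nonneg (b z : ℝ) (hz : 0 ≤ z) : 0 ≤ hb b z :=
  mul_nonneg hz (Real.exp_pos _).le

/-- on `[0, (2/b)^2]` we have `b sqrt z ≤ 2`. -/
theorem b_sqrt_le (b z : ℝ) (hb : 0 < b) (hz : z ≤ (2 / b) ^ 2) : b * √z ≤ 2 := by
  have h : √z ≤ 2 / b := by
    calc √z ≤ √((2 / b) ^ 2) := Real.sqrt_le_sqrt hz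
      _ = 2 / b := Real.sqrt_sq (by positivity)
  calc b * √z ≤ b * (2 / b) := mul_le_mul_of_nonneg_left h hb.le
    _ = 2 := by field_simp

theorem hb_monotoneOn (b : ℝ) (h0 : 0 < b) : MonotoneOn (hb b) (Icc 0 ((2 / b) ^ 2)) := by
  refine monotoneOn_of_deriv_nonneg (convex_Icc _ _) (hb_continuous b).continuousOn ?_ ?_
  · intro z hz
    rw [interior_Icc] at hz
    exact (hb_hasDerivAt b z hz.1).differentiableAt.differentiableWithinAt
  · intro z hz
    rw [interior_Icc] at hz
    rw [(hb_hasDerivAt b z hz.1).deriv]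
    have := b_sqrt_le b z h0 hz.2.le
    exact mul_nonneg (Real.exp_pos _).le (by linarith)

theorem hb_concaveOn (b : ℝ) (h0 : 0 < b) : ConcaveOn ℝ (Icc 0 ((2 / b) ^ 2)) (hb b) := by
  refine AntitoneOn.concaveOn_of_deriv (convex_Icc _ _) (hb_continuous b).continuousOn ?_ ?_
  · intro z hz
    rw [interior_Icc] at hz
    exact (hb_hasDerivAt b z hz.1).differentiableAt.differentiableWithinAt
  · intro y hy z hz hyz
    rw [interior_Icc] at hy hz
    rw [(hb_hasDerivAt b z hz.1).deriv, (hb_hasDerivAt b y hy.1).deriv]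
    have h1 : b * √y ≤ b * √z := mul_le_mul_of_nonneg_left (Real.sqrt_le_sqrt hyz) h0.le
    have h2 := b_sqrt_le b z h0 hz.2.le
    refine mul_le_mul (Real.exp_le_exp.2 (by linarith)) (by linarith) (by linarith)
      (Real.exp_pos _).le

/-- the glued function `h(min z z1)` is concave and monotone. -/
theorem glue_concave (b : ℝ) (h0 : 0 < b) :
    ConcaveOn ℝ (Ici 0) (fun z => hb b (min z ((2 / b) ^ 2))) := by
  set z1 : ℝ := (2 / b) ^ 2 with hz1
  have hz1pos : 0 < z1 := by positivity
  have himg : (fun z : ℝ => min z z1) '' (Ici 0) ⊆ Icc 0 z1 := by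
    rintro _ ⟨z, hz, rfl⟩
    exact ⟨le_min hz hz1pos.le, min_le_right _ _⟩
  refine ⟨convex_Ici 0, ?_⟩
  intro x hx y hy a c ha hc hac
  have hx' : min x z1 ∈ Icc 0 z1 := himg ⟨x, hx, rfl⟩
  have hy' : min y z1 ∈ Icc 0 z1 := himg ⟨y, hy, rfl⟩
  have h1 := (hb_concaveOn b h0).2 hx' hy' ha hc hac
  have hcomb : a • min x z1 + c • min y z1 ∈ Icc 0 z1 :=
    (convex_Icc (0 : ℝ) z1) hx' hy' ha hc hac
  have hle : a • min x z1 + c • min y z1 ≤ min (a • x + c • y) z1 := by
    simp only [smul_eq_mul]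
    refine le_min ?_ ?_
    · exact add_le_add (mul_le_mul_of_nonneg_left (min_le_left _ _) ha)
        (mul_le_mul_of_nonneg_left (min_le_left _ _) hc)
    · simpa [smul_eq_mul] using hcomb.2
  have hxy : (0 : ℝ) ≤ a • x + c • y := by
    have hx0 : (0 : ℝ) ≤ x := hx
    have hy0 : (0 : ℝ) ≤ y := hy
    simp only [smul_eq_mul]
    positivity
  have h2 := hb_monotoneOn b h0 hcomb ⟨le_min hxy hz1pos.le, min_le_right _ _⟩ hle
  exact h1.trans h2

theorem glue_monotone (b : ℝ) (h0 : 0 < b) :
    MonotoneOn (fun z => hb b (min z ((2 / b) ^ 2))) (Ici 0) := by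
  intro x hx y hy hxy
  have hz1pos : 0 < (2 / b) ^ 2 := by positivity
  exact hb_monotoneOn b h0 ⟨le_min hx hz1pos.le, min_le_right _ _⟩
    ⟨le_min hy hz1pos.le, min_le_right _ _⟩ (min_le_min hxy le_rfl)

/-- (R3) bootstrapping: if `0 ≤ L ≤ min (1, A sqrt y)` and every concave nondecreasing majorant
`Xi` of `(L + L^2)/2` satisfies `L y ≤ Xi (2 y)`, then `L y ≤ 60 A^2 y`. -/
theorem bootstrap (A : ℝ) (hA : 1 ≤ A) (L : ℝ → ℝ)
    (h0 : ∀ y, 0 ≤ y → y ≤ 1 → 0 ≤ L y) (h1 : ∀ y, 0 ≤ y → y ≤ 1 → L y ≤ 1)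
    (hs : ∀ y, 0 ≤ y → y ≤ 1 → L y ≤ A * √y)
    (hstep : ∀ Xi : ℝ → ℝ, ConcaveOn ℝ (Icc 0 2) Xi → MonotoneOn Xi (Icc 0 2) →
      (∀ y, 0 ≤ y → y ≤ 1 → (L y + L y ^ 2) / 2 ≤ Xi y) →
      ∀ y, 0 ≤ y → y ≤ 1 → L y ≤ Xi (2 * y)) :
    ∀ y, 0 ≤ y → y ≤ 1 → L y ≤ 60 * A ^ 2 * y := by
  have hA0 : 0 < A := by linarith
  set b : ℝ := 4 * A with hbdef
  have hb0 : 0 < b := by positivity
  set z1 : ℝ := (2 / b) ^ 2 with hz1
  have hz1A : z1 = 1 / (4 * A ^ 2) := by rw [hz1, hbdef]; field_simp; ring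
  have hz1pos : 0 < z1 := by positivity
  have hz1le : z1 ≤ 1 := by
    rw [hz1A, div_le_one (by positivity)]; nlinarith
  have hsz1 : √z1 = 2 / b := Real.sqrt_sq (by positivity)
  have hbz1 : b * √z1 = 2 := by rw [hsz1]; field_simp
  -- C0 = 8 A^2 e^2
  set C0 : ℝ := 8 * A ^ 2 * Real.exp 2 with hC0
  have hC0pos : 0 < C0 := by positivity
  have hC0h : C0 / 2 * hb b z1 = 1 := by
    unfold hb
    rw [hbz1, hz1A, hC0]
    have : Real.exp 2 * Real.exp (-2) = 1 := by rw [← Real.exp_add]; simp
    have e : 8 * A ^ 2 * Real.exp 2 / 2 * (1 / (4 * A ^ 2) * Real.exp (-2))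
        = (Real.exp 2 * Real.exp (-2)) := by field_simp; ring
    rw [e, this]
  -- the one step
  have step : ∀ eps : ℝ, 0 ≤ eps →
      (∀ y, 0 ≤ y → y ≤ z1 → L y ≤ C0 * (y * Real.exp (-(5 * A * √y))) + eps) →
      (∀ y, 0 ≤ y → y ≤ z1 → L y ≤ C0 * (y * Real.exp (-(5 * A * √y))) + (3 / 4) * eps) := by
    intro eps heps hP
    have hXi := hstep (fun z => C0 / 2 * hb b (min z z1) + (3 / 4) * eps) ?_ ?_ ?_
    · intro y hy hyz
      rcases le_total (2 * y) z1 with h2 | h2
      · have h3 := hXi y hy (hyz.trans hz1le)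
        rw [min_eq_left h2] at h3
        refine h3.trans ?_
        have h4 : C0 / 2 * hb b (2 * y) ≤ C0 * (y * Real.exp (-(5 * A * √y))) := by
          unfold hb
          have h5 : Real.exp (-(b * √(2 * y))) ≤ Real.exp (-(5 * A * √y)) := by
            apply Real.exp_le_exp.2
            have h6 : √(2 * y) = √2 * √y := Real.sqrt_mul (by norm_num) y
            have h7 : (5 / 4 : ℝ) ≤ √2 := by
              apply Real.le_sqrt_of_sq_le; norm_num
            rw [h6, hbdef]
            have h8 : 0 ≤ A * √y := by positivity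
            nlinarith
          calc C0 / 2 * (2 * y * Real.exp (-(b * √(2 * y))))
              = C0 * (y * Real.exp (-(b * √(2 * y)))) := by ring
            _ ≤ C0 * (y * Real.exp (-(5 * A * √y))) := by
                apply mul_le_mul_of_nonneg_left _ hC0pos.le
                exact mul_le_mul_of_nonneg_left h5 hy
        linarith
      · -- y ≥ z1 / 2 : L y ≤ 1
        have hL1 := h1 y hy (hyz.trans hz1le)
        have h9 : 1 ≤ C0 * (y * Real.exp (-(5 * A * √y))) := by
          set r : ℝ := 2 * A * √y with hr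
          have hyy : √y ^ 2 = y := Real.sq_sqrt hy
          have hr2 : r ^ 2 = 4 * A ^ 2 * y := by rw [hr, mul_pow, hyy]; ring
          have hr0 : 0 ≤ r := by positivity
          have hr1 : r ≤ 1 := by
            have : r ^ 2 ≤ 1 ^ 2 := by
              rw [hr2]
              rw [hz1A, le_div_iff₀ (by positivity)] at hyz
              nlinarith
            exact (pow_le_pow_iff_left₀ hr0 (by norm_num) (by norm_num)).1 this
          have hr3 : 1 / 2 ≤ r ^ 2 := by
            rw [hr2]
            rw [hz1A, div_le_iff₀ (by positivity)] at h2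
            nlinarith
          have e1 : C0 * (y * Real.exp (-(5 * A * √y))) = 2 * r ^ 2 * Real.exp (2 - 5 / 2 * r) := by
            have : (2 : ℝ) - 5 / 2 * r = 2 + (-(5 * A * √y)) := by rw [hr]; ring
            rw [this, Real.exp_add, hr2, hC0]; ring
          rw [e1]
          have h10 : 3 - 5 / 2 * r ≤ Real.exp (2 - 5 / 2 * r) := by
            have := Real.add_one_le_exp (2 - 5 / 2 * r)
            linarith
          have h11 : 1 ≤ 2 * r ^ 2 * (3 - 5 / 2 * r) := by
            have hrr : 7 / 10 ≤ r := by nlinarith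
            have h12 : 0 ≤ (1 - r) * (5 * r ^ 2 - r - 1) := by
              apply mul_nonneg (by linarith)
              nlinarith
            nlinarith
          calc (1 : ℝ) ≤ 2 * r ^ 2 * (3 - 5 / 2 * r) := h11
            _ ≤ _ := mul_le_mul_of_nonneg_left h10 (by positivity)
        linarith
    · -- concave
      have hsub : Icc (0 : ℝ) 2 ⊆ Ici 0 := fun x hx => hx.1
      have hg := (glue_concave b hb0).subset hsub (convex_Icc _ _)
      have h2 := (hg.smul (c := C0 / 2) (by positivity)).add_const ((3 / 4) * eps)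
      exact h2
    · -- monotone
      intro x hx y hy hxy
      have h4 : hb b (min x z1) ≤ hb b (min y z1) :=
        glue_monotone b hb0 (show x ∈ Ici (0 : ℝ) from hx.1) (show y ∈ Ici (0 : ℝ) from hy.1) hxy
      have h3 := mul_le_mul_of_nonneg_left h4 (by positivity : 0 ≤ C0 / 2)
      show C0 / 2 * hb b (min x z1) + (3 / 4) * eps ≤ C0 / 2 * hb b (min y z1) + (3 / 4) * eps
      linarith
    · -- majorant
      intro z hz hz'
      have hL0 := h0 z hz hz'
      have hL1 := h1 z hz hz'
      rcases le_total z z1 with h2 | h2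
      · have hLs := hs z hz hz'
        have hP' := hP z hz h2
        simp only [min_eq_left h2]
        have hAz : A * √z ≤ 1 / 2 := by
          have : b * √z ≤ 2 := b_sqrt_le b z hb0 h2
          rw [hbdef] at this; linarith
        have hAz0 : 0 ≤ A * √z := by positivity
        have he : 1 + A * √z ≤ Real.exp (A * √z) := by
          have := Real.add_one_le_exp (A * √z); linarith
        have hq : 0 ≤ C0 * (z * Real.exp (-(5 * A * √z))) := by positivity
        have e2 : C0 / 2 * hb b z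
            = (C0 * (z * Real.exp (-(5 * A * √z)))) * Real.exp (A * √z) / 2 := by
          unfold hb
          have : Real.exp (-(b * √z)) = Real.exp (-(5 * A * √z)) * Real.exp (A * √z) := by
            rw [← Real.exp_add, hbdef]; congr 1; ring
          rw [this]; ring
        rw [e2]
        have h5 : (L z + L z ^ 2) / 2 ≤ (C0 * (z * Real.exp (-(5 * A * √z))) + eps)
            * (1 + A * √z) / 2 := by
          have : L z + L z ^ 2 = L z * (1 + L z) := by ring
          rw [this]
          have h6 : L z * (1 + L z) ≤ (C0 * (z * Real.exp (-(5 * A * √z))) + eps)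
              * (1 + A * √z) :=
            mul_le_mul hP' (by linarith) (by linarith) (by positivity)
          linarith
        have h7 : (C0 * (z * Real.exp (-(5 * A * √z)))) * (1 + A * √z)
            ≤ (C0 * (z * Real.exp (-(5 * A * √z)))) * Real.exp (A * √z) :=
          mul_le_mul_of_nonneg_left he hq
        nlinarith
      · simp only [min_eq_right h2]
        rw [hC0h]
        nlinarith
  -- iterate
  have iter : ∀ k : ℕ, ∀ y, 0 ≤ y → y ≤ z1 →
      L y ≤ C0 * (y * Real.exp (-(5 * A * √y))) + (3 / 4 : ℝ) ^ k := by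
    intro k
    induction k with
    | zero =>
      intro y hy hyz
      have := h1 y hy (hyz.trans hz1le)
      have h2 : 0 ≤ C0 * (y * Real.exp (-(5 * A * √y))) := by positivity
      simp only [pow_zero]; linarith
    | succ k ih =>
      intro y hy hyz
      have := step ((3 / 4 : ℝ) ^ k) (by positivity) ih y hy hyz
      rw [pow_succ]; linarith
  have hlim : Filter.Tendsto (fun k : ℕ => (3 / 4 : ℝ) ^ k) Filter.atTop (nhds 0) :=
    tendsto_pow_atTop_nhds_zero_of_lt_one (by norm_num) (by norm_num)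
  have hfin : ∀ y, 0 ≤ y → y ≤ z1 → L y ≤ C0 * (y * Real.exp (-(5 * A * √y))) := by
    intro y hy hyz
    have h2 : Filter.Tendsto
        (fun k : ℕ => C0 * (y * Real.exp (-(5 * A * √y))) + (3 / 4 : ℝ) ^ k) Filter.atTop
        (nhds (C0 * (y * Real.exp (-(5 * A * √y))) + 0)) := hlim.const_add _
    rw [add_zero] at h2
    exact ge_of_tendsto' h2 fun k => iter k y hy hyz
  have he2 : Real.exp 2 ≤ 7.39 := by
    have h := Real.exp_one_lt_d9
    have h2 : Real.exp 2 = Real.exp 1 ^ 2 := by
      rw [← Real.exp_nat_mul]; norm_num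
    rw [h2]
    have h3 : Real.exp 1 ^ 2 ≤ 2.7182818286 ^ 2 := pow_le_pow_left₀ (Real.exp_pos _).le h.le 2
    refine h3.trans (by norm_num)
  have hC060 : C0 ≤ 60 * A ^ 2 := by
    rw [hC0]; nlinarith [sq_nonneg A, sq_pos_of_pos hA0]
  intro y hy hy1
  rcases le_total y z1 with h2 | h2
  · have h3 := hfin y hy h2
    have h4 : Real.exp (-(5 * A * √y)) ≤ 1 := by
      rw [Real.exp_le_one_iff]
      have : 0 ≤ 5 * A * √y := by positivity
      linarith
    have h5 : y * Real.exp (-(5 * A * √y)) ≤ y := by nlinarith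
    calc L y ≤ C0 * (y * Real.exp (-(5 * A * √y))) := h3
      _ ≤ C0 * y := mul_le_mul_of_nonneg_left h5 hC0pos.le
      _ ≤ 60 * A ^ 2 * y := mul_le_mul_of_nonneg_right hC060 hy
  · have h3 := h1 y hy hy1
    have h4 : 1 / (4 * A ^ 2) ≤ y := by rw [← hz1A]; exact h2
    have h5 : 1 ≤ 4 * A ^ 2 * y := by
      rw [div_le_iff₀ (by positivity)] at h4; linarith
    nlinarith [sq_pos_of_pos hA0]

end H41.F2
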