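import Pool.Agent.H41.F2.StepIII
import Pool.Agent.H96.F2.HN2
import Pool.Agent.H68.F2.CM
import Pool.Agent.H83.F2.StepI
import Pool.Agent.H69.PFR.B5

/-! Assembly of the linear inverse theorem (E''). -/

set_option autoImplicit false

namespace F2

open H2INV Finset

noncomputable section

namespace III

theorem lemA : LemA := by
  intro a l ha hl hyp E _ _ _ V X Y x y _ hy hX hY _ hsY
  refine B.lemmaA' ha hl ?_ E V X Y y hy hX hY hsY
  intro E' _ _ _ V' X' Y' x' hx' hX' hY' hsp heq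
  exact hyp E' V' X' Y' x' hx' hX' hY' heq hsp

theorem lemB : LemB := by
  intro a l ha hl h E _ _ _ V X Z x hx hX hZ hsp
  refine B.lemmaB' (lb := LL) ?_ (fun z _ _ => LL_nonneg z) (fun z z' _ hz _ => LL_mono hz)
    h E V X Z x hx hX hZ hsp
  intro E' _ _ _ V' X' Z' z _ _ hX' hZ' hs
  exact VA_LL z E' V' X' Z' hX' hZ' hs

theorem b5' : B5 := by
  intro E _ _ _ X Y hc
  have h := F2.b5 X Y hc
  linarith

theorem b5p : Epp.B5P := by
  intro E _ _ _ X Y hc
  exact F2.b5 X Y hc

theorem hypM {A : ℝ} (h : Epp.CM A) (t : ℝ) (ht : 0 < t) : Hyp (A * t / 2) (A / (2 * t)) := by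
  intro E _ _ _ V X Y x hx hX hY heq hsp
  rcases eq_or_lt_of_le hx with h0 | hpos
  · rw [← h0, zero_mul]
    rw [← h0, zero_mul] at heq
    have := D_add_le (X := X) (Y := Y) (V := V)
    linarith
  · have h1 := h E V X Y x hX hY hpos hsp t ht
    have e : x * A / 2 * (ls V * t + (ls V - H Y) / t)
        = x * (A * t / 2 * ls V + A / (2 * t) * (ls V - H Y)) := by
      field_simp
    rw [e] at h1
    exact h1

/-- THE LINEAR INVERSE THEOREM (E''). -/
theorem epp_main : ∃ C : ℝ, 1 ≤ C ∧ B.EPP C := by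
  obtain ⟨c, hc, hst⟩ := stepI
  -- shrink c to be at most 1
  set c' : ℝ := min c 1 with hc'
  have hc0 : 0 < c' := lt_min hc one_pos
  have hc1 : c' ≤ 1 := min_le_right _ _
  have hSB : Epp.SB c' (1 / 16) := by
    intro E _ _ _ V U hU hsp
    exact hst E U V hU (Spr_mono (min_le_left _ _) hsp)
  have hCM := Epp.cm_of b5p hc0 hSB
  have hA : 1 ≤ 5 / c' := by
    rw [le_div_iff₀ hc0]; linarith
  refine ⟨144 * (5 / c') ^ 2, ?_, epp hA (hypM hCM) b5' lemA lemB⟩
  nlinarith

end III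

end

end F2
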