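import Mathlib

/-!
Pure real analysis used in the proof of the linear inverse theorem (E'').
-/

open Finset Real

namespace H41.F2

/-- (R1) Abel summation: a nonincreasing nonnegative weight against partial sums. -/
theorem abel_le (m : ℕ) (w a d : ℕ → ℝ) (x : ℝ)
    (hw0 : ∀ b < m, 0 ≤ w b) (hw : ∀ b, b + 1 < m → w (b + 1) ≤ w b)
    (hp : ∀ j ≤ m, ∑ b ∈ range j, a b ≤ x * ∑ b ∈ range j, d b) :
    ∑ b ∈ range m, w b * a b ≤ x * ∑ b ∈ range m, w b * d b := by
  -- reduce to c b = x * d b - a b with nonnegative partial sums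
  have key : ∀ n : ℕ, n ≤ m → 0 < n →
      w (n - 1) * (∑ b ∈ range n, (x * d b - a b)) ≤ ∑ b ∈ range n, w b * (x * d b - a b) := by
    intro n
    induction n with
    | zero => intro _ h; exact absurd h (lt_irrefl _)
    | succ n ih =>
      intro hn _
      rcases Nat.eq_zero_or_pos n with h0 | hpos
      · subst h0; simp
      · have ih' := ih (by omega) hpos
        rw [Finset.sum_range_succ, Finset.sum_range_succ, mul_add]
        have hnn : 0 ≤ ∑ b ∈ range n, (x * d b - a b) := by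
          rw [Finset.sum_sub_distrib, ← Finset.mul_sum]
          have := hp n (by omega)
          linarith
        have h1 : w (n + 1 - 1) ≤ w (n - 1) := by
          have := hw (n - 1) (by omega)
          have e : n - 1 + 1 = n := by omega
          rw [e] at this
          simpa using this
        have h2 : w (n + 1 - 1) * ∑ b ∈ range n, (x * d b - a b)
            ≤ w (n - 1) * ∑ b ∈ range n, (x * d b - a b) :=
          mul_le_mul_of_nonneg_right h1 hnn
        have h3 : n + 1 - 1 = n := by omega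
        rw [h3] at h2 ⊢
        linarith
  rcases Nat.eq_zero_or_pos m with h0 | hpos
  · subst h0; simp
  · have h := key m le_rfl hpos
    have hnn : 0 ≤ ∑ b ∈ range m, (x * d b - a b) := by
      rw [Finset.sum_sub_distrib, ← Finset.mul_sum]
      have := hp m le_rfl
      linarith
    have h2 : 0 ≤ w (m - 1) * ∑ b ∈ range m, (x * d b - a b) :=
      mul_nonneg (hw0 _ (by omega)) hnn
    have h4 : ∑ b ∈ range m, w b * (x * d b - a b)
        = x * ∑ b ∈ range m, w b * d b - ∑ b ∈ range m, w b * a b := by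
      rw [Finset.mul_sum, ← Finset.sum_sub_distrib]
      refine Finset.sum_congr rfl fun b _ => ?_
      ring
    linarith

/-- (R2) weighted Jensen inequality for a concave function, weights `d b ≥ 0`. -/
theorem jensen_le {S : Set ℝ} {Xi : ℝ → ℝ} (hc : ConcaveOn ℝ S Xi)
    {ι : Type*} (s : Finset ι) (d z : ι → ℝ)
    (hd : ∀ b ∈ s, 0 ≤ d b) (hz : ∀ b ∈ s, z b ∈ S) (hpos : 0 < ∑ b ∈ s, d b) :
    ∑ b ∈ s, d b * Xi (z b) ≤ (∑ b ∈ s, d b) * Xi ((∑ b ∈ s, d b * z b) / ∑ b ∈ s, d b) := by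
  set T := ∑ b ∈ s, d b with hT
  have h := hc.le_map_sum (t := s) (w := fun b => d b / T) (p := z)
    (fun b hb => div_nonneg (hd b hb) hpos.le)
    (by rw [← Finset.sum_div, ← hT, div_self hpos.ne']) hz
  simp only [smul_eq_mul] at h
  have e1 : ∑ b ∈ s, d b / T * Xi (z b) = (∑ b ∈ s, d b * Xi (z b)) / T := by
    rw [Finset.sum_div]
    refine Finset.sum_congr rfl fun b _ => ?_
    ring
  have e2 : ∑ b ∈ s, d b / T * z b = (∑ b ∈ s, d b * z b) / T := by
    rw [Finset.sum_div]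
    refine Finset.sum_congr rfl fun b _ => ?_
    ring
  rw [e1, e2, div_le_iff₀ hpos] at h
  linarith [h]

/-- (R2') Cauchy-Schwarz form used in Claim N: `∑ d √u ≤ √y ∑ d` if `∑ d u ≤ y ∑ d`. -/
theorem sqrt_sum_le {ι : Type*} (s : Finset ι) (d u : ι → ℝ) (y : ℝ)
    (hd : ∀ b ∈ s, 0 ≤ d b) (hu : ∀ b ∈ s, 0 ≤ u b) (hy : 0 ≤ y)
    (h : ∑ b ∈ s, d b * u b ≤ y * ∑ b ∈ s, d b) :
    ∑ b ∈ s, d b * √(u b) ≤ √y * ∑ b ∈ s, d b := by
  have hD : 0 ≤ ∑ b ∈ s, d b := Finset.sum_nonneg hd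
  have hL : 0 ≤ ∑ b ∈ s, d b * √(u b) :=
    Finset.sum_nonneg fun b hb => mul_nonneg (hd b hb) (Real.sqrt_nonneg _)
  have hcs := Finset.sum_mul_sq_le_sq_mul_sq s (fun b => √(d b)) (fun b => √(d b) * √(u b))
  have e1 : ∑ b ∈ s, √(d b) * (√(d b) * √(u b)) = ∑ b ∈ s, d b * √(u b) := by
    refine Finset.sum_congr rfl fun b hb => ?_
    rw [← mul_assoc, Real.mul_self_sqrt (hd b hb)]
  have e2 : ∑ b ∈ s, √(d b) ^ 2 = ∑ b ∈ s, d b := by
    refine Finset.sum_congr rfl fun b hb => ?_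
    rw [Real.sq_sqrt (hd b hb)]
  have e3 : ∑ b ∈ s, (√(d b) * √(u b)) ^ 2 = ∑ b ∈ s, d b * u b := by
    refine Finset.sum_congr rfl fun b hb => ?_
    rw [mul_pow, Real.sq_sqrt (hd b hb), Real.sq_sqrt (hu b hb)]
  rw [e1, e2, e3] at hcs
  have h5 : (∑ b ∈ s, d b * √(u b)) ^ 2 ≤ (√y * ∑ b ∈ s, d b) ^ 2 := by
    rw [mul_pow, Real.sq_sqrt hy]
    calc (∑ b ∈ s, d b * √(u b)) ^ 2 ≤ (∑ b ∈ s, d b) * (∑ b ∈ s, d b * u b) := hcs
      _ ≤ (∑ b ∈ s, d b) * (y * ∑ b ∈ s, d b) := mul_le_mul_of_nonneg_left h hD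
      _ = y * (∑ b ∈ s, d b) ^ 2 := by ring
  exact (pow_le_pow_iff_left₀ hL (mul_nonneg (Real.sqrt_nonneg _) hD) (by norm_num)).1 h5

/-- (R4) the telescoping step (2.8): `t j = th*(8^{-j})`. -/
theorem telescope_small (t : ℕ → ℝ) (c : ℕ → ℝ) (S B : ℝ)
    (h0 : ∀ j, 0 ≤ t j) (h1 : t 0 ≤ 1) (hanti : ∀ j, t (j + 1) ≤ t j)
    (hB : 0 ≤ B) (hc : ∀ K, ∑ j ∈ range K, c j ≤ S)
    (hstep : ∀ j, t (j + 1) ^ 2 ≤ c j + B * (t j - t (j + 1))) :
    ∀ eps : ℝ, 0 < eps → ∃ K, t K ≤ eps := by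
  intro eps heps
  have hle : ∀ K, ∀ j ≤ K, t K ≤ t j := by
    intro K j hj
    exact antitone_nat_of_succ_le hanti hj
  have hsum : ∀ K : ℕ, ∑ j ∈ range K, t (j + 1) ^ 2 ≤ S + B * (t 0 - t K) := by
    intro K
    have h2 : ∑ j ∈ range K, t (j + 1) ^ 2 ≤ ∑ j ∈ range K, c j + B * (t 0 - t K) := by
      induction K with
      | zero => simp
      | succ K ih =>
        rw [Finset.sum_range_succ, Finset.sum_range_succ]
        have := hstep K
        linarith
    linarith [hc K]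
  obtain ⟨K, hK⟩ := exists_nat_gt ((S + B) / eps ^ 2)
  refine ⟨K, ?_⟩
  by_contra hlt
  push Not at hlt
  have h3 : (K : ℝ) * eps ^ 2 ≤ ∑ j ∈ range K, t (j + 1) ^ 2 := by
    have : ∑ j ∈ range K, eps ^ 2 ≤ ∑ j ∈ range K, t (j + 1) ^ 2 := by
      refine Finset.sum_le_sum fun j hj => ?_
      have h4 : t K ≤ t (j + 1) := hle K (j + 1) (by have := Finset.mem_range.1 hj; omega)
      have h5 : eps ≤ t (j + 1) := by linarith
      exact pow_le_pow_left₀ heps.le h5 2
    simpa using this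
  have h6 := hsum K
  have h7 : B * (t 0 - t K) ≤ B := by
    have : t 0 - t K ≤ 1 := by linarith [h0 K]
    nlinarith
  rw [div_lt_iff₀ (by positivity)] at hK
  linarith

/-- geometric sums of `a * 8^{-(j+1)}` are bounded by `a`. -/
theorem geom_bound (a : ℝ) (ha : 0 ≤ a) (K : ℕ) :
    ∑ j ∈ range K, a * (1 / 8 : ℝ) ^ (j + 1) ≤ a := by
  have h : ∑ j ∈ range K, a * (1 / 8 : ℝ) ^ (j + 1) ≤ a * (1 / 7) * (1 - (1 / 8 : ℝ) ^ K) := by
    induction K with
    | zero => simp
    | succ K ih =>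
      rw [Finset.sum_range_succ, pow_succ]
      nlinarith [ih, pow_pos (show (0 : ℝ) < 1 / 8 by norm_num) K]
  have h2 : (0 : ℝ) < (1 / 8 : ℝ) ^ K := by positivity
  nlinarith

/-- (R5) one numeric step of Claim M. -/
theorem claimM_step (v v1 v2 sig c M n D D1 D2 : ℝ)
    (hc : 0 < c) (hn : 0 < n) (hM : 5 / c ≤ M) (hD0 : 0 ≤ D) (hDn : D ≤ n)
    (hsig : 0 ≤ sig) (hD1 : D1 ≤ 2 * D - sig) (hD1' : 0 ≤ D1) (hD2 : D2 ≤ D1 / 16)
    (h1 : v1 ≤ M * √(n * D1)) (h2 : v2 ≤ M * √(n * D2))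
    (hv : v ≤ sig / c + (v1 + v2) / 2) : v ≤ (9 / 10) * M * √(n * D) := by
  have hMpos : 0 < M := lt_of_lt_of_le (by positivity) hM
  have hsigD : sig ≤ 2 * D := by linarith
  have hs1 : √(n * D1) ≤ √(n * (2 * D - sig)) :=
    Real.sqrt_le_sqrt (mul_le_mul_of_nonneg_left hD1 hn.le)
  have hs2 : √(n * D2) ≤ √(n * (2 * D - sig)) / 4 := by
    have : n * D2 ≤ (n * (2 * D - sig)) * (1 / 4) ^ 2 := by
      have : D2 ≤ (2 * D - sig) / 16 := by linarith
      nlinarith
    calc √(n * D2) ≤ √((n * (2 * D - sig)) * (1 / 4) ^ 2) := Real.sqrt_le_sqrt this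
      _ = √(n * (2 * D - sig)) * (1 / 4) := by
          rw [Real.sqrt_mul (mul_nonneg hn.le (by linarith)), Real.sqrt_sq (by norm_num)]
      _ = √(n * (2 * D - sig)) / 4 := by ring
  set q := √(n * (2 * D - sig)) with hq
  have hq0 : 0 ≤ q := Real.sqrt_nonneg _
  have hv1 : v ≤ sig / c + (5 / 8) * M * q := by
    have a1 : v1 ≤ M * q := h1.trans (mul_le_mul_of_nonneg_left hs1 hMpos.le)
    have a2 : v2 ≤ M * (q / 4) := h2.trans (mul_le_mul_of_nonneg_left hs2 hMpos.le)
    linarith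
  rcases eq_or_lt_of_le hD0 with hz | hDpos
  · have hs0 : sig = 0 := by linarith
    have hq00 : q = 0 := by
      rw [hq, ← hz, hs0]; simp
    rw [hq00, hs0] at hv1
    have : 0 ≤ (9 / 10) * M * √(n * D) := by positivity
    simp at hv1
    linarith
  · set p := √(n * D) with hp
    have hp0 : 0 < p := Real.sqrt_pos.2 (mul_pos hn hDpos)
    have hpp : p ^ 2 = n * D := Real.sq_sqrt (mul_pos hn hDpos).le
    have hDp : D ≤ p := by
      have : D ^ 2 ≤ p ^ 2 := by rw [hpp]; nlinarith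
      exact (pow_le_pow_iff_left₀ hD0 hp0.le (by norm_num)).1 this
    have hqq : q ^ 2 = n * (2 * D - sig) := Real.sq_sqrt (mul_nonneg hn.le (by linarith))
    -- q ≤ (sqrt 2) p (1 - sig / (4 D));  use the rational bounds 1.4 ≤ sqrt 2 ≤ 1.44
    have hq2 : q ≤ √2 * p * (1 - sig / (4 * D)) := by
      have hnn : 0 ≤ √2 * p * (1 - sig / (4 * D)) := by
        have : sig / (4 * D) ≤ 1 / 2 := by
          rw [div_le_iff₀ (by positivity)]; linarith
        have h3 : 0 ≤ 1 - sig / (4 * D) := by linarith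
        positivity
      have h4 : q ^ 2 ≤ (√2 * p * (1 - sig / (4 * D))) ^ 2 := by
        rw [hqq, mul_pow, mul_pow, Real.sq_sqrt (by norm_num : (0 : ℝ) ≤ 2), hpp]
        have h5 : n * (2 * D - sig) = 2 * (n * D) * (1 - sig / (2 * D)) := by
          field_simp
        rw [h5]
        have h6 : 1 - sig / (2 * D) ≤ (1 - sig / (4 * D)) ^ 2 := by
          have : sig / (2 * D) = 2 * (sig / (4 * D)) := by field_simp; ring
          rw [this]; nlinarith [sq_nonneg (sig / (4 * D))]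
        exact mul_le_mul_of_nonneg_left h6 (by positivity)
      exact (pow_le_pow_iff_left₀ hq0 hnn (by norm_num)).1 h4
    have hr1 : √2 ≤ 36 / 25 := by
      rw [Real.sqrt_le_left (by norm_num)]; norm_num
    have hr2 : 7 / 5 ≤ √2 := by
      apply Real.le_sqrt_of_sq_le; norm_num
    have h7 : v ≤ sig / c + (5 / 8) * M * (√2 * p * (1 - sig / (4 * D))) := by
      have := mul_le_mul_of_nonneg_left hq2 (by positivity : 0 ≤ (5 / 8) * M)
      linarith
    have h8 : sig / c ≤ M * sig / 5 := by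
      rw [div_le_iff₀ hc] at hM ⊢
      nlinarith
    have h9 : sig ≤ p * (sig / D) := by
      have : sig = D * (sig / D) := by field_simp
      have h10 : 0 ≤ sig / D := div_nonneg hsig hD0
      nlinarith
    have h11 : (5 / 8) * M * (√2 * p * (1 - sig / (4 * D)))
        = (5 / 8) * M * √2 * p - (5 / 32) * M * √2 * (p * (sig / D)) := by
      field_simp; ring
    rw [h11] at h7
    have h12 : (5 / 8) * M * √2 * p ≤ (9 / 10) * M * p := by
      have : (5 / 8) * √2 ≤ 9 / 10 := by linarith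
      nlinarith [mul_pos hMpos hp0]
    have h13 : M * sig / 5 ≤ (5 / 32) * M * √2 * (p * (sig / D)) := by
      have ha : (1 : ℝ) / 5 ≤ (5 / 32) * √2 := by nlinarith
      have hb : 0 ≤ p * (sig / D) := by positivity
      calc M * sig / 5 = M * ((1 / 5) * sig) := by ring
        _ ≤ M * ((5 / 32) * √2 * (p * (sig / D))) := by
            apply mul_le_mul_of_nonneg_left _ hMpos.le
            exact mul_le_mul ha h9 hsig (by positivity)
        _ = (5 / 32) * M * √2 * (p * (sig / D)) := by ring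
    linarith

/-- iteration lemma: shrink `M` by the factor `9/10` down to `B`. -/
theorem shrink (P : ℝ → Prop) (B M0 : ℝ) (hB : 0 < B)
    (hmono : ∀ M M', M ≤ M' → P M → P M')
    (hstep : ∀ M, B ≤ M → P M → P ((9 / 10) * M)) (h0 : P M0) : P B := by
  by_contra hPB
  have h : ∀ k : ℕ, P (max B ((9 / 10 : ℝ) ^ k * M0)) := by
    intro k
    induction k with
    | zero => exact hmono _ _ (by simp) h0
    | succ k ih =>
      have h1 := hstep _ (le_max_left _ _) ih
      refine hmono _ _ ?_ h1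
      rcases le_total B ((9 / 10 : ℝ) ^ k * M0) with h2 | h2
      · rw [max_eq_right h2, pow_succ]
        exact le_trans (le_of_eq (by ring)) (le_max_right _ _)
      · rw [max_eq_left h2]
        exact le_trans (by linarith) (le_max_left _ _)
  have hlim : Filter.Tendsto (fun k : ℕ => (9 / 10 : ℝ) ^ k * M0) Filter.atTop (nhds (0 * M0)) :=
    (tendsto_pow_atTop_nhds_zero_of_lt_one (by norm_num) (by norm_num)).mul_const M0
  rw [zero_mul] at hlim
  obtain ⟨k, hk⟩ := (hlim.eventually (gt_mem_nhds hB)).exists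
  have := h k
  rw [max_eq_left hk.le] at this
  exact hPB this

end H41.F2
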