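import Pool.Agent.H9.F2.L1
import Pool.Agent.H9.F2.L2
import Pool.Agent.H96.F2.Bog

/-! Step III of the linear inverse theorem (E''): from Claim M, (B5') and the two HN-Abel lemmas
to `D(X+W) ≤ 144 A^2 s(X) D(W)`. -/

set_option autoImplicit false

namespace F2

open H2INV Finset

noncomputable section

namespace III

/-- hypothesis of the HN-Abel lemma: the estimate for semistable `X`. -/
def Hyp (a l : ℝ) : Prop :=
  ∀ (E : Type) [AddCommGroup E] [Finite E] [Two E] (V : AddSubgroup E) (X Y : Fam E) (x : ℝ),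
    0 ≤ x → In X V → In Y V → ls V - H X = x * ls V → Spr X V x →
      ls V - H (add X Y) ≤ x * (a * ls V + l * (ls V - H Y))

/-- validity at `y`. -/
def VA (y r : ℝ) : Prop :=
  ∀ (E : Type) [AddCommGroup E] [Finite E] [Two E] (V : AddSubgroup E) (X Y : Fam E),
    In X V → In Y V → Spr Y V y → ls V - H (add X Y) ≤ r * (ls V - H X)

/-- the smallest valid function. -/
def LL (y : ℝ) : ℝ := sInf {r : ℝ | 0 ≤ r ∧ VA y r}

/-- HN-Abel lemma (Lemma A), case `e = 0`. -/
def LemA : Prop :=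
  ∀ (a l : ℝ), 0 ≤ a → 0 ≤ l → Hyp a l →
  ∀ (E : Type) [AddCommGroup E] [Finite E] [Two E] (V : AddSubgroup E) (X Y : Fam E) (x y : ℝ),
    0 ≤ x → 0 ≤ y → In X V → In Y V → Spr X V x → Spr Y V y →
      ls V - H (add X Y) ≤ (a + l * y) * (ls V - H X)

/-- dual lemma (Lemma B), case `e = 0`, for `lb = LL`. -/
def LemB : Prop :=
  ∀ (a l : ℝ), 0 ≤ a → 0 ≤ l → (∀ z, 0 ≤ z → z ≤ 1 → (LL z + LL z ^ 2) / 2 ≤ a + l * z) →
  ∀ (E : Type) [AddCommGroup E] [Finite E] [Two E] (V : AddSubgroup E) (X Z : Fam E) (x : ℝ),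
    0 ≤ x → In X V → In Z V → Spr X V x →
      (ls V - H (add X Z)) + (ls V - H (add X (add Z Z)))
        ≤ 2 * x * (a * ls V + l * (ls V - H Z))

/-- (B5') for `Y` with a constant label. -/
def B5 : Prop :=
  ∀ (E : Type) [AddCommGroup E] [Finite E] [Two E] (X Y : Fam E),
    (∀ w w', 0 < Y.m w → 0 < Y.m w' → Y.J w = Y.J w') →
      1 / 2 * H (add X (fold Y Y)) + 1 / 2 * ∑ w, (fold Y Y).m w *
        H (add X (add (sl (fold Y Y) w) (sl (fold Y Y) w))) ≤ H (add X Y)

variable {E : Type} [AddCommGroup E]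

section basics
variable [Finite E]

lemma D_nonneg {U : Fam E} {V : AddSubgroup E} (h : In U V) : 0 ≤ ls V - H U := by
  have := H_le h; linarith

lemma Spr_one {U : Fam E} {V : AddSubgroup E} : Spr U V 1 := by
  intro W _
  have h1 : ls W ≤ hh U W := by
    rw [hh_eq]; have := hq_nonneg U W; linarith
  linarith

lemma Spr_mono {U : Fam E} {V : AddSubgroup E} {s t : ℝ} (hst : s ≤ t) (h : Spr U V s) :
    Spr U V t := by
  intro W hW
  have h1 := h W hW
  have h2 : 0 ≤ ls V - ls W := by have := ls_mono hW; linarith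
  have h3 := mul_le_mul_of_nonneg_right hst h2
  linarith

/-- the sum never has larger deficiency. -/
lemma D_add_le {X Y : Fam E} {V : AddSubgroup E} :
    ls V - H (add X Y) ≤ ls V - H X := by
  have := H_add_left X Y; linarith

lemma D_add_le' {X Y : Fam E} {V : AddSubgroup E} :
    ls V - H (add X Y) ≤ ls V - H Y := by
  have := H_add_right X Y; linarith

end basics

lemma VA_one (y : ℝ) : VA y 1 := by
  intro E _ _ _ V X Y _ _ _
  rw [one_mul]; exact D_add_le

lemma set_nonempty (y : ℝ) : {r : ℝ | 0 ≤ r ∧ VA y r}.Nonempty := ⟨1, zero_le_one, VA_one y⟩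

lemma set_bdd (y : ℝ) : BddBelow {r : ℝ | 0 ≤ r ∧ VA y r} := ⟨0, fun _ h => h.1⟩

lemma LL_nonneg (y : ℝ) : 0 ≤ LL y := le_csInf (set_nonempty y) fun _ h => h.1

lemma LL_le_one (y : ℝ) : LL y ≤ 1 := csInf_le (set_bdd y) ⟨zero_le_one, VA_one y⟩

lemma LL_le {y r : ℝ} (hr : 0 ≤ r) (h : VA y r) : LL y ≤ r := csInf_le (set_bdd y) ⟨hr, h⟩

lemma VA_LL (y : ℝ) : VA y (LL y) := by
  intro E _ _ _ V X Y hX hY hs
  have hD := D_nonneg hX
  rcases eq_or_lt_of_le hD with h0 | hpos
  · rw [← h0, mul_zero]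
    have := D_add_le (X := X) (Y := Y) (V := V)
    linarith
  · rw [← div_le_iff₀ hpos]
    refine le_csInf (set_nonempty y) fun r hr => ?_
    rw [div_le_iff₀ hpos]
    exact hr.2 E V X Y hX hY hs

lemma VA_mono {y y' r : ℝ} (h : y ≤ y') (hr : VA y' r) : VA y r := by
  intro E _ _ _ V X Y hX hY hs
  exact hr E V X Y hX hY (Spr_mono h hs)

lemma LL_mono {y y' : ℝ} (h : y ≤ y') : LL y ≤ LL y' :=
  LL_le (LL_nonneg _) (VA_mono h (VA_LL y'))

/-- Claim N: from Claim M (in its linear form) and Lemma A. -/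
theorem claimN {A : ℝ} (hA : 0 < A) (hM : ∀ t : ℝ, 0 < t → Hyp (A * t / 2) (A / (2 * t)))
    (lA : LemA) (y : ℝ) (hy : 0 ≤ y) : LL y ≤ A * √y := by
  rcases eq_or_lt_of_le hy with h0 | hpos
  · rw [← h0, Real.sqrt_zero, mul_zero]
    by_contra hlt
    push Not at hlt
    have hLp : 0 < LL 0 := hlt
    have hva : VA 0 (LL 0 / 2) := by
      intro E _ _ _ V X Y hX hY hs
      have ht : 0 < LL 0 / A := by positivity
      have h := lA _ _ (by positivity) (by positivity) (hM (LL 0 / A) ht) E V X Y 1 0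
        zero_le_one le_rfl hX hY Spr_one hs
      have e : A * (LL 0 / A) / 2 + A / (2 * (LL 0 / A)) * 0 = LL 0 / 2 := by
        field_simp; ring
      rw [e] at h
      exact h
    have := LL_le (by positivity) hva
    linarith
  · have hs : 0 < √y := Real.sqrt_pos.2 hpos
    have hss : √y * √y = y := Real.mul_self_sqrt hy
    refine LL_le (by positivity) ?_
    intro E _ _ _ V X Y hX hY hsp
    have h := lA _ _ (by positivity) (by positivity) (hM (√y) hs) E V X Y 1 y
      zero_le_one hy hX hY Spr_one hsp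
    have e : A * √y / 2 + A / (2 * √y) * y = A * √y := by
      have : A / (2 * √y) * y = A * √y / 2 := by
        nth_rewrite 2 [← hss]
        field_simp
      rw [this]; ring
    rw [e] at h
    exact h

section pos
variable [Finite E]

lemma avg_le {U : Fam E} (f g : U.Om → ℝ) (h : ∀ w, f w ≤ g w) :
    ∑ w, U.m w * f w ≤ ∑ w, U.m w * g w :=
  Finset.sum_le_sum fun w _ => mul_le_mul_of_nonneg_left (h w) (U.hm.nonneg w)

lemma avg_D {U : Fam E} (c : ℝ) (f : U.Om → ℝ) :
    ∑ w, U.m w * (c - f w) = c - ∑ w, U.m w * f w := by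
  simp only [mul_sub]
  rw [Finset.sum_sub_distrib, avg_const]

end pos

/-- slices have an a.s. constant label -/
lemma sl_const (Y : Fam E) {w0 : Y.Om} (h0 : 0 < Y.m w0) :
    ∀ w w', 0 < (sl Y w0).m w → 0 < (sl Y w0).m w' → (sl Y w0).J w = (sl Y w0).J w' := by
  have key : ∀ w, 0 < (sl Y w0).m w → Y.J w = Y.J w0 := by
    intro w hw
    rw [sl_m Y h0] at hw
    by_contra hne
    have : condPM Y.m Y.J (Y.J w0) w = 0 := by
      unfold condPM
      simp [hne]
    rw [this] at hw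
    exact lt_irrefl _ hw
  intro w w' hw hw'
  exact (key w hw).trans (key w' hw').symm

/-- Step III for semistable `X` and `Y` with constant label. -/
lemma stepIII_const (b5 : B5) (lB : LemB) {a l : ℝ} (ha : 0 ≤ a) (hl : 0 ≤ l)
    (h : ∀ z, 0 ≤ z → z ≤ 1 → (LL z + LL z ^ 2) / 2 ≤ a + l * z)
    (E : Type) [AddCommGroup E] [Finite E] [Two E] (V : AddSubgroup E) (X Y : Fam E) (x : ℝ)
    (hx : 0 ≤ x) (hX : In X V) (hY : In Y V) (hsp : Spr X V x)
    (hc : ∀ w w', 0 < Y.m w → 0 < Y.m w' → Y.J w = Y.J w') :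
    ls V - H (add X Y) ≤ x * (a * ls V + 2 * l * (ls V - H Y)) := by
  have h5 := b5 E X Y hc
  set Z := fold Y Y with hZ
  have hZV : In Z V := In_fold hY
  -- slices of Z
  have h6 : ∀ w, (ls V - H (add X (sl Z w))) + (ls V - H (add X (add (sl Z w) (sl Z w))))
      ≤ 2 * x * (a * ls V + l * (ls V - H (sl Z w))) := fun w =>
    lB a l ha hl h E V X (sl Z w) x hx hX (In_sl hZV w) hsp
  have h7 := avg_le (U := Z) _ _ h6
  have e1 : ∑ w, Z.m w * ((ls V - H (add X (sl Z w)))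
      + (ls V - H (add X (add (sl Z w) (sl Z w)))))
      = (ls V - H (add X Z))
        + (ls V - ∑ w, Z.m w * H (add X (add (sl Z w) (sl Z w)))) := by
    simp only [mul_add]
    rw [Finset.sum_add_distrib, avg_D, avg_D, avg_H_add_sl']
  have e2 : ∑ w, Z.m w * (2 * x * (a * ls V + l * (ls V - H (sl Z w))))
      = 2 * x * (a * ls V + l * (ls V - H Z)) := by
    have : ∀ w, Z.m w * (2 * x * (a * ls V + l * (ls V - H (sl Z w))))
        = Z.m w * (2 * x * (a * ls V + l * ls V)) - 2 * x * l * (Z.m w * H (sl Z w)) := by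
      intro w; ring
    simp only [this]
    rw [Finset.sum_sub_distrib, avg_const, ← Finset.mul_sum, avg_H_sl]
    ring
  rw [e1, e2] at h7
  have h8 : H Z = H Y + H Y - H (add Y Y) := H_fold Y Y
  have h9 : H (add Y Y) ≤ ls V := H_le (In_add hY hY)
  have h10 : ls V - H Z ≤ 2 * (ls V - H Y) := by rw [h8]; linarith
  have h11 : l * (ls V - H Z) ≤ l * (2 * (ls V - H Y)) := mul_le_mul_of_nonneg_left h10 hl
  have h12 : 2 * x * (a * ls V + l * (ls V - H Z)) ≤ 2 * x * (a * ls V + l * (2 * (ls V - H Y))) :=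
    mul_le_mul_of_nonneg_left (by linarith) (by positivity)
  have h13 : 2 * (ls V - H (add X Y)) ≤ 2 * x * (a * ls V + l * (2 * (ls V - H Y))) := by
    linarith
  have e3 : 2 * x * (a * ls V + l * (2 * (ls V - H Y)))
      = 2 * (x * (a * ls V + 2 * l * (ls V - H Y))) := by ring
  rw [e3] at h13
  linarith

/-- Step III for semistable `X`: `Hyp a (2 l)`. -/
theorem stepIII_hyp (b5 : B5) (lB : LemB) {a l : ℝ} (ha : 0 ≤ a) (hl : 0 ≤ l)
    (h : ∀ z, 0 ≤ z → z ≤ 1 → (LL z + LL z ^ 2) / 2 ≤ a + l * z) : Hyp a (2 * l) := by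
  intro E _ _ _ V X Y x hx hX hY _ hsp
  have h1 : ∀ w, Y.m w * (ls V - H (add X (sl Y w)))
      ≤ Y.m w * (x * (a * ls V + 2 * l * (ls V - H (sl Y w)))) := by
    intro w
    rcases eq_or_lt_of_le (Y.hm.nonneg w) with h0 | hpos
    · rw [← h0]; simp
    · refine mul_le_mul_of_nonneg_left ?_ hpos.le
      exact stepIII_const b5 lB ha hl h E V X (sl Y w) x hx hX (In_sl hY w) hsp
        (sl_const Y hpos)
  have h2 := Finset.sum_le_sum fun w (_ : w ∈ Finset.univ) => h1 w
  rw [avg_D, avg_H_add_sl'] at h2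
  have e2 : ∑ w, Y.m w * (x * (a * ls V + 2 * l * (ls V - H (sl Y w))))
      = x * (a * ls V + 2 * l * (ls V - H Y)) := by
    have : ∀ w, Y.m w * (x * (a * ls V + 2 * l * (ls V - H (sl Y w))))
        = Y.m w * (x * (a * ls V + 2 * l * ls V)) - x * (2 * l) * (Y.m w * H (sl Y w)) := by
      intro w; ring
    simp only [this]
    rw [Finset.sum_sub_distrib, avg_const, ← Finset.mul_sum, avg_H_sl]
    ring
  rw [e2] at h2
  exact h2

theorem stepIII (b5 : B5) (lA : LemA) (lB : LemB) {a l : ℝ} (ha : 0 ≤ a) (hl : 0 ≤ l)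
    (h : ∀ z, 0 ≤ z → z ≤ 1 → (LL z + LL z ^ 2) / 2 ≤ a + l * z) (y : ℝ) (hy : 0 ≤ y) :
    LL y ≤ a + 2 * l * y := by
  refine LL_le (by positivity) ?_
  intro E _ _ _ V X Y hX hY hsp
  exact lA a (2 * l) ha (by positivity) (stepIII_hyp b5 lB ha hl h) E V X Y 1 y
    zero_le_one hy hX hY Spr_one hsp

/-- the purely real bootstrapping: linear majorants. -/
theorem bootstrap_lin (A : ℝ) (hA : 1 ≤ A) (L : ℝ → ℝ)
    (h0 : ∀ y, 0 ≤ y → y ≤ 1 → 0 ≤ L y) (h1 : ∀ y, 0 ≤ y → y ≤ 1 → L y ≤ 1)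
    (hs : ∀ y, 0 ≤ y → y ≤ 1 → L y ≤ A * √y)
    (hstep : ∀ a l : ℝ, 0 ≤ a → 0 ≤ l →
      (∀ y, 0 ≤ y → y ≤ 1 → (L y + L y ^ 2) / 2 ≤ a + l * y) →
      ∀ y, 0 ≤ y → y ≤ 1 → L y ≤ a + 2 * l * y) :
    ∀ y, 0 ≤ y → y ≤ 1 → L y ≤ 144 * A ^ 2 * y := by
  have hA0 : 0 < A := by linarith
  set z1 : ℝ := 1 / (36 * A ^ 2) with hz1
  have hz1pos : 0 < z1 := by positivity
  have hz1le : z1 ≤ 1 := by
    rw [hz1, div_le_one (by positivity)]; nlinarith
  -- for z ≤ z1 : A sqrt z ≤ 1/6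
  have hAs : ∀ z, 0 ≤ z → z ≤ z1 → A * √z ≤ 1 / 6 := by
    intro z hz hzz
    have h2 : √z ^ 2 = z := Real.sq_sqrt hz
    have h3 : (A * √z) ^ 2 ≤ (1 / 6) ^ 2 := by
      rw [mul_pow, h2]
      rw [hz1, le_div_iff₀ (by positivity)] at hzz
      nlinarith
    exact (pow_le_pow_iff_left₀ (by positivity) (by norm_num) (by norm_num)).1 h3
  have step : ∀ eps : ℝ, 0 ≤ eps →
      (∀ y, 0 ≤ y → y ≤ z1 → L y ≤ 144 * A ^ 2 * (y - 4 * A * √y ^ 3) + eps) →
      (∀ y, 0 ≤ y → y ≤ z1 → L y ≤ 144 * A ^ 2 * (y - 4 * A * √y ^ 3) + (7 / 12) * eps) := by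
    intro eps heps hP y hy hyz
    have hyy : √y ^ 2 = y := Real.sq_sqrt hy
    rcases le_total (2 * y) z1 with h2 | h2
    · -- tangent at t = 2 y
      set p := √(2 * y) with hp
      have hp0 : 0 ≤ p := Real.sqrt_nonneg _
      have hpp : p ^ 2 = 2 * y := Real.sq_sqrt (by linarith)
      have hAp : A * p ≤ 1 / 6 := hAs (2 * y) (by linarith) h2
      have hAp0 : 0 ≤ A * p := by positivity
      set a : ℝ := 72 * A ^ 2 * (3 / 2 * A * p ^ 3) + (7 / 12) * eps with ha
      set l : ℝ := 72 * A ^ 2 * (1 - 9 / 2 * (A * p)) with hl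
      have ha0 : 0 ≤ a := by positivity
      have hl0 : 0 ≤ l := by
        rw [hl]; apply mul_nonneg (by positivity); linarith
      -- tangent line inequality
      have htan : ∀ q : ℝ, 0 ≤ q → q ^ 2 - 3 * A * q ^ 3
          ≤ 3 / 2 * A * p ^ 3 + (1 - 9 / 2 * (A * p)) * q ^ 2 := by
        intro q hq
        have h3 : 3 * p * q ^ 2 ≤ p ^ 3 + 2 * q ^ 3 := by
          have : p ^ 3 + 2 * q ^ 3 - 3 * p * q ^ 2 = (p - q) ^ 2 * (p + 2 * q) := by ring
          have h4 : 0 ≤ (p - q) ^ 2 * (p + 2 * q) := by positivity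
          linarith
        have h5 := mul_le_mul_of_nonneg_left h3 hA0.le
        nlinarith
      have hmaj : ∀ z, 0 ≤ z → z ≤ 1 → (L z + L z ^ 2) / 2 ≤ a + l * z := by
        intro z hz hz'
        have hL0 := h0 z hz hz'
        have hL1 := h1 z hz hz'
        rcases le_total z z1 with h3 | h3
        · have hzz : √z ^ 2 = z := Real.sq_sqrt hz
          have hq0 : 0 ≤ √z := Real.sqrt_nonneg _
          have hAz := hAs z hz h3
          have hAz0 : 0 ≤ A * √z := by positivity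
          have hPz := hP z hz h3
          have hLs := hs z hz hz'
          have hOm : 0 ≤ z - 4 * A * √z ^ 3 := by
            have : √z ^ 3 = √z * z := by rw [pow_succ, hzz]; ring
            rw [this]
            have h4 : 4 * A * (√z * z) = 4 * (A * √z) * z := by ring
            rw [h4]; nlinarith
          have h5 : L z * (1 + L z) ≤ (144 * A ^ 2 * (z - 4 * A * √z ^ 3) + eps)
              * (1 + A * √z) :=
            mul_le_mul hPz (by linarith) (by linarith) (by positivity)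
          have h6 : (z - 4 * A * √z ^ 3) * (1 + A * √z) ≤ √z ^ 2 - 3 * A * √z ^ 3 := by
            have e1 : (z - 4 * A * √z ^ 3) * (1 + A * √z)
                = √z ^ 2 - 3 * A * √z ^ 3 - 4 * A ^ 2 * (√z ^ 2) ^ 2 := by
              nth_rewrite 1 [← hzz]; ring
            rw [e1]
            have : 0 ≤ 4 * A ^ 2 * (√z ^ 2) ^ 2 := by positivity
            linarith
          have h7 := htan (√z) hq0
          rw [hzz] at h7
          rw [hzz] at h6
          have h8 : eps * (1 + A * √z) ≤ 7 / 6 * eps := by nlinarith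
          have h9 : 144 * A ^ 2 * ((z - 4 * A * √z ^ 3) * (1 + A * √z))
              ≤ 144 * A ^ 2 * (3 / 2 * A * p ^ 3 + (1 - 9 / 2 * (A * p)) * z) :=
            mul_le_mul_of_nonneg_left (h6.trans h7) (by positivity)
          have e2 : (L z + L z ^ 2) / 2 = L z * (1 + L z) / 2 := by ring
          have e3 : (144 * A ^ 2 * (z - 4 * A * √z ^ 3) + eps) * (1 + A * √z)
              = 144 * A ^ 2 * ((z - 4 * A * √z ^ 3) * (1 + A * √z)) + eps * (1 + A * √z) := by
            ring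
          have e4 : a + l * z = 144 * A ^ 2 * (3 / 2 * A * p ^ 3
              + (1 - 9 / 2 * (A * p)) * z) / 2 + (7 / 12) * eps := by
            rw [ha, hl]; ring
          rw [e2, e4]
          rw [e3] at h5
          linarith
        · -- z ≥ z1 : use q = sqrt z1 = 1/(6A)
          have hq := htan (1 / (6 * A)) (by positivity)
          have e1 : (1 / (6 * A)) ^ 2 - 3 * A * (1 / (6 * A)) ^ 3 = 1 / (72 * A ^ 2) := by
            field_simp; ring
          have e2 : (1 / (6 * A)) ^ 2 = z1 := by rw [hz1]; field_simp; ring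
          rw [e1, e2] at hq
          have h5 : (L z + L z ^ 2) / 2 ≤ 1 := by nlinarith
          have h6 : l * z1 ≤ l * z := mul_le_mul_of_nonneg_left h3 hl0
          have h7 : 72 * A ^ 2 * (1 / (72 * A ^ 2)) ≤ 72 * A ^ 2 * (3 / 2 * A * p ^ 3
              + (1 - 9 / 2 * (A * p)) * z1) := mul_le_mul_of_nonneg_left hq (by positivity)
          have e3 : 72 * A ^ 2 * (1 / (72 * A ^ 2)) = 1 := by field_simp
          rw [e3] at h7
          have e4 : 72 * A ^ 2 * (3 / 2 * A * p ^ 3 + (1 - 9 / 2 * (A * p)) * z1)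
              = 72 * A ^ 2 * (3 / 2 * A * p ^ 3) + l * z1 := by rw [hl]; ring
          rw [e4] at h7
          have : 0 ≤ (7 / 12) * eps := by positivity
          rw [ha]; linarith
      have h3 := hstep a l ha0 hl0 hmaj y hy (hyz.trans hz1le)
      -- a + 2 l y = 144 A^2 (y - (3/2) A p^3) + (7/12) eps
      have e5 : a + 2 * l * y = 144 * A ^ 2 * (y - 3 / 2 * A * p ^ 3) + (7 / 12) * eps := by
        have : p ^ 3 = p * (2 * y) := by rw [← hpp]; ring
        rw [ha, hl, this]; ring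
      rw [e5] at h3
      have h4 : 8 / 3 * √y ^ 3 ≤ p ^ 3 := by
        have h6 : p = √2 * √y := Real.sqrt_mul (by norm_num) y
        have h7 : (1.4 : ℝ) ≤ √2 := by
          apply Real.le_sqrt_of_sq_le; norm_num
        have h8 : √2 ^ 3 = 2 * √2 := by
          have : √2 ^ 2 = 2 := Real.sq_sqrt (by norm_num)
          rw [pow_succ, this]
        have h9 : 0 ≤ √y ^ 3 := by positivity
        rw [h6, mul_pow, h8]
        nlinarith
      have h5 : 4 * A * √y ^ 3 ≤ 3 / 2 * A * p ^ 3 := by nlinarith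
      have h6 : 144 * A ^ 2 * (y - 3 / 2 * A * p ^ 3) ≤ 144 * A ^ 2 * (y - 4 * A * √y ^ 3) :=
        mul_le_mul_of_nonneg_left (by linarith) (by positivity)
      linarith
    · -- y ≥ z1/2 : L y ≤ 1
      have hL1 := h1 y hy (hyz.trans hz1le)
      set r : ℝ := 6 * A * √y with hr
      have hr0 : 0 ≤ r := by positivity
      have hr2 : r ^ 2 = 36 * A ^ 2 * y := by rw [hr, mul_pow, hyy]; ring
      have hr1 : r ≤ 1 := by have := hAs y hy hyz; rw [hr]; linarith
      have hr3 : 1 / 2 ≤ r ^ 2 := by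
        rw [hr2]
        rw [hz1, div_le_iff₀ (by positivity)] at h2
        nlinarith
      have e1 : 144 * A ^ 2 * (y - 4 * A * √y ^ 3) = 4 * r ^ 2 - 8 / 3 * r ^ 3 := by
        have : √y ^ 3 = √y * y := by rw [pow_succ, hyy]; ring
        have e : r ^ 3 = 216 * A ^ 3 * (√y * y) := by rw [hr, mul_pow, this]; ring
        rw [this, hr2, e]; ring
      have hrr : 7 / 10 ≤ r := by nlinarith
      have h5 : 1 ≤ 4 * r ^ 2 - 8 / 3 * r ^ 3 := by
        nlinarith [mul_nonneg (mul_nonneg hr0 hr0) (sub_nonneg.2 hr1),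
          mul_nonneg hr0 (sub_nonneg.2 hr1), mul_nonneg (sub_nonneg.2 hrr) (sub_nonneg.2 hr1),
          mul_nonneg (mul_nonneg hr0 (sub_nonneg.2 hrr)) (sub_nonneg.2 hr1)]
      rw [e1]
      have : 0 ≤ (7 / 12) * eps := by positivity
      linarith
  have iter : ∀ k : ℕ, ∀ y, 0 ≤ y → y ≤ z1 →
      L y ≤ 144 * A ^ 2 * (y - 4 * A * √y ^ 3) + (7 / 12 : ℝ) ^ k := by
    intro k
    induction k with
    | zero =>
      intro y hy hyz
      have hL := h1 y hy (hyz.trans hz1le)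
      have hyy : √y ^ 2 = y := Real.sq_sqrt hy
      have hAy := hAs y hy hyz
      have : √y ^ 3 = √y * y := by rw [pow_succ, hyy]; ring
      have h4 : 4 * A * (√y * y) = 4 * (A * √y) * y := by ring
      have h5 : 0 ≤ y - 4 * A * √y ^ 3 := by rw [this, h4]; nlinarith
      have h6 : 0 ≤ 144 * A ^ 2 * (y - 4 * A * √y ^ 3) := by positivity
      simp only [pow_zero]; linarith
    | succ k ih =>
      intro y hy hyz
      have h8 := step ((7 / 12 : ℝ) ^ k) (by positivity) ih y hy hyz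
      have h9 : (7 / 12 : ℝ) ^ (k + 1) = 7 / 12 * (7 / 12 : ℝ) ^ k := by ring
      rw [h9]; exact h8
  have hlim : Filter.Tendsto (fun k : ℕ => (7 / 12 : ℝ) ^ k) Filter.atTop (nhds 0) :=
    tendsto_pow_atTop_nhds_zero_of_lt_one (by norm_num) (by norm_num)
  have hfin : ∀ y, 0 ≤ y → y ≤ z1 → L y ≤ 144 * A ^ 2 * (y - 4 * A * √y ^ 3) := by
    intro y hy hyz
    have h2 : Filter.Tendsto
        (fun k : ℕ => 144 * A ^ 2 * (y - 4 * A * √y ^ 3) + (7 / 12 : ℝ) ^ k) Filter.atTop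
        (nhds (144 * A ^ 2 * (y - 4 * A * √y ^ 3) + 0)) := hlim.const_add _
    rw [add_zero] at h2
    exact ge_of_tendsto' h2 fun k => iter k y hy hyz
  intro y hy hy1
  rcases le_total y z1 with h2 | h2
  · have h3 := hfin y hy h2
    have h4 : 0 ≤ 4 * A * √y ^ 3 := by positivity
    have h5 : 144 * A ^ 2 * (y - 4 * A * √y ^ 3) ≤ 144 * A ^ 2 * y :=
      mul_le_mul_of_nonneg_left (by linarith) (by positivity)
    linarith
  · have h3 := h1 y hy hy1
    rw [hz1, div_le_iff₀ (by positivity)] at h2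
    nlinarith

/-- the linear bound for `LL`. -/
theorem LL_lin {A : ℝ} (hA : 1 ≤ A) (hM : ∀ t : ℝ, 0 < t → Hyp (A * t / 2) (A / (2 * t)))
    (b5 : B5) (lA : LemA) (lB : LemB) : ∀ y, 0 ≤ y → y ≤ 1 → LL y ≤ 144 * A ^ 2 * y :=
  bootstrap_lin A hA LL (fun y _ _ => LL_nonneg y) (fun y _ _ => LL_le_one y)
    (fun y hy _ => claimN (by linarith) hM lA y hy)
    (fun _ _ ha hl h y hy _ => stepIII b5 lA lB ha hl h y hy)

/-- THEOREM (E''), from Claim M, (B5') and the two HN-Abel lemmas. -/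
theorem epp {A : ℝ} (hA : 1 ≤ A) (hM : ∀ t : ℝ, 0 < t → Hyp (A * t / 2) (A / (2 * t)))
    (b5 : B5) (lA : LemA) (lB : LemB) : B.EPP (144 * A ^ 2) := by
  intro E _ _ _ V X W s hs hX hW hsp
  have hDW := D_nonneg hW
  rcases le_total s 1 with h1 | h1
  · have h2 := LL_lin hA hM b5 lA lB s hs.le h1
    have h3 := VA_LL s E V W X hW hX hsp
    rw [H_add_comm] at h3
    exact h3.trans (mul_le_mul_of_nonneg_right h2 hDW)
  · have h2 : ls V - H (add X W) ≤ ls V - H W := D_add_le'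
    have h3 : 1 ≤ 144 * A ^ 2 * s := by nlinarith
    calc ls V - H (add X W) ≤ 1 * (ls V - H W) := by linarith
      _ ≤ 144 * A ^ 2 * s * (ls V - H W) := mul_le_mul_of_nonneg_right h3 hDW

end III

end

end F2
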